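import Mathlib

/-! Perfect-matching form of the critical condition (definitions for MP_a46c6f_co, maximal block route).

`mu` = partner on `M`, `nu` = successor on `C = C1 ∪ C2`. A perfect matching `η` stands for the
disjoint union `E = M + η` of alternating circuits; `G_E = G - (E ∩ C)` has the edges `v - mu v`
(all `v`) and `v - nu v` with `η v ≠ nu v`. -/

namespace Pool.Agent.H90.Kz

open Finset

/-- a cubic graph with a perfect matching `mu` and the complementary 2-factor `nu` -/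
structure Cub (V : Type) where
  mu : V → V
  nu : Equiv.Perm V
  mu_mu : ∀ v, mu (mu v) = v
  mu_ne : ∀ v, mu v ≠ v
  mu_nu : ∀ v, mu v ≠ nu v
  nu_ne : ∀ v, nu v ≠ v
  nu_nu : ∀ v, nu (nu v) ≠ v

variable {V : Type} [Fintype V] [DecidableEq V]

/-- `η` is a perfect matching of the cubic graph -/
def IsPM (G : Cub V) (η : V → V) : Prop :=
  (∀ v, η (η v) = v) ∧ ∀ v, η v = G.mu v ∨ η v = G.nu v ∨ η v = G.nu.symm v

/-- number of edges of `G_E` between the disjoint sets `A` and `B` -/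
def ed (G : Cub V) (η : V → V) (A B : Finset V) : ℕ :=
  (A.filter fun v => G.mu v ∈ B).card +
    (A.filter fun v => G.nu v ∈ B ∧ η v ≠ G.nu v).card +
    (A.filter fun v => G.nu.symm v ∈ B ∧ η v ≠ G.nu.symm v).card

/-- number of edges of `G` leaving `A` -/
def dl (G : Cub V) (A : Finset V) : ℕ :=
  (A.filter fun v => G.mu v ∉ A).card + (A.filter fun v => G.nu v ∉ A).card +
    (A.filter fun v => G.nu.symm v ∉ A).card

/-- `Ω` is (as an induced subgraph of `G_E`) 2-edge-connected -/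
def TEC (G : Cub V) (η : V → V) (Ω : Finset V) : Prop :=
  Ω.Nonempty ∧ ∀ A ⊆ Ω, A.Nonempty → A ≠ Ω → 2 ≤ ed G η A (Ω \ A)

/-- no removable circuit: every perfect matching `η ≠ mu` contains a cut with exactly one edge of `M`,
i.e. `G_E` has a bridge (an `M`-edge) -/
def Crit (G : Cub V) : Prop :=
  ∀ η, IsPM G η → η ≠ G.mu → ∃ W : Finset V, (W.filter fun v => G.mu v ∉ W).card = 1 ∧
    (∀ v ∈ W, G.nu v ∉ W → η v = G.nu v) ∧ ∀ v ∈ W, G.nu.symm v ∉ W → η v = G.nu.symm v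

/-- 3-edge-connected, all edge cuts with at most 4 edges trivial -/
def Cyc5 (G : Cub V) : Prop :=
  ∀ W : Finset V, W.Nonempty → W ≠ univ → 3 ≤ dl G W ∧
    (dl G W = 3 → W.card = 1 ∨ Wᶜ.card = 1) ∧ (dl G W = 4 → W.card = 2 ∨ Wᶜ.card = 2)

/-- all edges of `η'` on `C` are edges of `η` or lie inside `S` -/
def Sub (G : Cub V) (η η' : V → V) (S : Finset V) : Prop :=
  ∀ v, η' v ≠ G.mu v → η' v = η v ∨ (v ∈ S ∧ η' v ∈ S)

/-- `(η, Ω)` with `|Ω|` maximal among all pairs -/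
def MaxPair (G : Cub V) (η : V → V) (Ω : Finset V) : Prop :=
  IsPM G η ∧ η ≠ G.mu ∧ TEC G η Ω ∧
    ∀ η' Ω', IsPM G η' → η' ≠ G.mu → TEC G η' Ω' → Ω'.card ≤ Ω.card

/-- `S` has no edge of `G_E` to `Sᶜ` except possibly one `M`-edge (a component of `G_E - Ω`) -/
def Pend (G : Cub V) (η : V → V) (S : Finset V) : Prop :=
  S.Nonempty ∧ (S.filter fun v => G.mu v ∉ S).card ≤ 1 ∧
    (∀ v ∈ S, G.nu v ∉ S → η v = G.nu v) ∧ ∀ v ∈ S, G.nu.symm v ∉ S → η v = G.nu.symm v

/-- property (1'): every other perfect matching supported by `η` and `G[S]` keeps all edges of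
`η` leaving `S` -/
def Tight (G : Cub V) (η : V → V) (S : Finset V) : Prop :=
  ∀ η', IsPM G η' → η' ≠ G.mu → Sub G η η' S → ∀ v ∈ S, η v ∉ S → η v ≠ G.mu v → η' v = η v

/-- `G` has a circuit of length at most 5 (in the form used by GirthFive): excluded -/
def NoPent (G : Cub V) : Prop :=
  ¬ ∃ c x y x' y' : V, G.mu x = y ∧ G.mu x' = y' ∧ (x = G.nu c ∨ x = G.nu.symm c) ∧
    (y' = G.nu c ∨ y' = G.nu.symm c) ∧ (x' = G.nu y ∨ x' = G.nu.symm y) ∧ x ≠ y'

end Pool.Agent.H90.Kz
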